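import Pool.Agent.H16.GHK.PH1

/-!
Row PHS of the page ghk, part 2: the logarithms of the minors along a coordinate line.
-/

set_option autoImplicit false

namespace Pool.Agent.H16.GHK

open Matrix Pool.Agent.H40.GHK
open scoped Matrix.Norms.Frobenius

/-- a real matrix as a complex matrix -/
noncomputable def cM {m : ℕ} (A : Matrix (Fin m) (Fin m) ℝ) : Matrix (Fin m) (Fin m) ℂ :=
  A.map (fun x => (x : ℂ))

lemma cM_norm {m : ℕ} (A : Matrix (Fin m) (Fin m) ℝ) : ‖cM A‖ = Real.sqrt (fsq A) := by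
  rw [Matrix.frobenius_norm_def, Real.sqrt_eq_rpow]
  congr 1
  unfold fsq
  refine Finset.sum_congr rfl fun i _ => Finset.sum_congr rfl fun j _ => ?_
  unfold cM
  rw [Matrix.map_apply, Complex.norm_real, Real.norm_eq_abs]
  have : (2 : ℝ) = ((2 : ℕ) : ℝ) := by norm_num
  rw [this, Real.rpow_natCast, sq_abs]

lemma cM_sub {m : ℕ} (A B : Matrix (Fin m) (Fin m) ℝ) : cM (A - B) = cM A - cM B := by
  ext i j
  simp [cM]

lemma cM_mul {m : ℕ} (A B : Matrix (Fin m) (Fin m) ℝ) : cM (A * B) = cM A * cM B := by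
  ext i j
  simp [cM, Matrix.mul_apply]

lemma cM_one {m : ℕ} : cM (1 : Matrix (Fin m) (Fin m) ℝ) = 1 := by
  ext i j
  by_cases h : i = j
  · rw [h]; simp [cM]
  · simp [cM, Matrix.one_apply_ne h]

lemma cM_tr {m : ℕ} (A : Matrix (Fin m) (Fin m) ℝ) : cM Aᵀ = (cM A)ᵀ := by
  ext i j
  simp [cM]

lemma entry_le {m : ℕ} (A : Matrix (Fin m) (Fin m) ℂ) (i j : Fin m) : ‖A i j‖ ≤ ‖A‖ := by
  rw [Matrix.frobenius_norm_def, ← Real.sqrt_eq_rpow]
  refine Real.le_sqrt_of_sq_le ?_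
  have h2 : ∀ i j, ‖A i j‖ ^ (2 : ℝ) = ‖A i j‖ ^ 2 := fun i j => by
    have : (2 : ℝ) = ((2 : ℕ) : ℝ) := by norm_num
    rw [this, Real.rpow_natCast]
  simp only [h2]
  have h3 : ‖A i j‖ ^ 2 ≤ ∑ j, ‖A i j‖ ^ 2 :=
    Finset.single_le_sum (f := fun j => ‖A i j‖ ^ 2) (fun j _ => sq_nonneg _) (Finset.mem_univ j)
  exact h3.trans (Finset.single_le_sum (f := fun i => ∑ j, ‖A i j‖ ^ 2)
    (fun i _ => Finset.sum_nonneg fun j _ => sq_nonneg _) (Finset.mem_univ i))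

lemma trace_norm {m : ℕ} (A : Matrix (Fin m) (Fin m) ℂ) : ‖A.trace‖ ≤ m * ‖A‖ := by
  unfold Matrix.trace
  refine (norm_sum_le _ _).trans ?_
  calc ∑ i : Fin m, ‖A.diag i‖ ≤ ∑ _i : Fin m, ‖A‖ :=
        Finset.sum_le_sum fun i _ => entry_le A i i
    _ = m * ‖A‖ := by simp

/-- the unit matrix with a one at `(a, b)` -/
noncomputable def eab {m : ℕ} (a b : Fin m) : Matrix (Fin m) (Fin m) ℝ :=
  Matrix.of fun i j => if i = a ∧ j = b then 1 else 0

lemma fsq_eab {m : ℕ} (a b : Fin m) : fsq (eab a b) = 1 := by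
  unfold fsq eab
  simp only [Matrix.of_apply]
  rw [Finset.sum_eq_single a, Finset.sum_eq_single b]
  · simp
  · intro j _ hj
    simp [hj]
  · intro h; exact absurd (Finset.mem_univ _) h
  · intro i _ hi
    refine Finset.sum_eq_zero fun j _ => ?_
    simp [hi]
  · intro h; exact absurd (Finset.mem_univ _) h

lemma eab_norm {m : ℕ} (a b : Fin m) : ‖cM (eab a b)‖ = 1 := by
  rw [cM_norm, fsq_eab, Real.sqrt_one]

lemma tr_eab {m : ℕ} (X : Matrix (Fin m) (Fin m) ℂ) (a b : Fin m) :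
    (X * cM (eab a b)).trace = X b a := by
  unfold Matrix.trace
  rw [Finset.sum_eq_single b]
  · rw [Matrix.diag_apply, Matrix.mul_apply, Finset.sum_eq_single a]
    · simp [cM, eab]
    · intro j _ hj
      simp [cM, eab, hj]
    · intro h; exact absurd (Finset.mem_univ _) h
  · intro i _ hi
    rw [Matrix.diag_apply, Matrix.mul_apply]
    refine Finset.sum_eq_zero fun j _ => ?_
    simp [cM, eab, hi]
  · intro h; exact absurd (Finset.mem_univ _) h

lemma eab_tr {m : ℕ} (a b : Fin m) : (cM (eab a b))ᵀ = cM (eab b a) := by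
  ext i j
  simp only [cM, eab, Matrix.transpose_apply, Matrix.map_apply, Matrix.of_apply]
  by_cases h1 : i = b <;> by_cases h2 : j = a <;> simp [h1, h2]

/-- the complex line through the real matrix `z` in the direction `(a, b)` -/
noncomputable def Zs {m : ℕ} (z : Matrix (Fin m) (Fin m) ℝ) (a b : Fin m) (s : ℂ) :
    Matrix (Fin m) (Fin m) ℂ := cM z + s • cM (eab a b)

/-- `Zᵀ Z` along the line -/
noncomputable def Ws {m : ℕ} (z : Matrix (Fin m) (Fin m) ℝ) (a b : Fin m) (s : ℂ) :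
    Matrix (Fin m) (Fin m) ℂ := (Zs z a b s)ᵀ * Zs z a b s - 1

/-- its derivative -/
noncomputable def Ws' {m : ℕ} (z : Matrix (Fin m) (Fin m) ℝ) (a b : Fin m) (s : ℂ) :
    Matrix (Fin m) (Fin m) ℂ := cM (eab b a) * Zs z a b s + (Zs z a b s)ᵀ * cM (eab a b)

/-- the minor along the line -/
noncomputable def us {m : ℕ} (E z : Matrix (Fin m) (Fin m) ℝ) (a b : Fin m) (s : ℂ) : ℂ :=
  (1 + cM E * Ws z a b s * cM E).det

lemma Zs_sub {m : ℕ} (z : Matrix (Fin m) (Fin m) ℝ) (a b : Fin m) (s : ℂ) :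
    ‖Zs z a b s - 1‖ ≤ Real.sqrt (fsq (z - 1)) + ‖s‖ := by
  have h : Zs z a b s - 1 = cM (z - 1) + s • cM (eab a b) := by
    unfold Zs
    rw [cM_sub, cM_one]
    abel
  rw [h]
  refine (norm_add_le _ _).trans ?_
  rw [cM_norm, norm_smul, eab_norm, mul_one]

lemma Ws_eq {m : ℕ} (z : Matrix (Fin m) (Fin m) ℝ) (a b : Fin m) (s : ℂ) :
    Ws z a b s = (Zs z a b s - 1)ᵀ + (Zs z a b s - 1) + (Zs z a b s - 1)ᵀ * (Zs z a b s - 1) := by
  unfold Ws
  rw [Matrix.transpose_sub, Matrix.transpose_one]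
  noncomm_ring

lemma Ws_norm {m : ℕ} (z : Matrix (Fin m) (Fin m) ℝ) (a b : Fin m) (s : ℂ) {r : ℝ}
    (hr : 0 < r) (hr1 : r ≤ 1 / 4) (hz : fsq (z - 1) ≤ r ^ 2) (hs : ‖s‖ ≤ 2 * r) :
    ‖Ws z a b s‖ ≤ 9 * r := by
  have h1 : Real.sqrt (fsq (z - 1)) ≤ r := by
    rw [Real.sqrt_le_left hr.le]
    exact hz
  have h2 : ‖Zs z a b s - 1‖ ≤ 3 * r := (Zs_sub z a b s).trans (by linarith)
  rw [Ws_eq]
  obtain ⟨Y, hY⟩ : ∃ Y, Y = Zs z a b s - 1 := ⟨_, rfl⟩
  rw [← hY] at h2 ⊢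
  have h3 : ‖Yᵀ‖ = ‖Y‖ := Matrix.frobenius_norm_transpose Y
  calc ‖Yᵀ + Y + Yᵀ * Y‖ ≤ ‖Yᵀ‖ + ‖Y‖ + ‖Yᵀ * Y‖ := norm_add₃_le
    _ ≤ 3 * r + 3 * r + 3 * r * (3 * r) := by
        refine add_le_add (add_le_add (h3.le.trans h2) h2) ((norm_mul_le _ _).trans ?_)
        rw [h3]
        gcongr
    _ ≤ 9 * r := by nlinarith

lemma Ws'_sub {m : ℕ} (z : Matrix (Fin m) (Fin m) ℝ) (a b : Fin m) (s : ℂ) {r : ℝ}
    (hr : 0 < r) (hz : fsq (z - 1) ≤ r ^ 2) (hs : ‖s‖ ≤ 2 * r) :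
    ‖Ws' z a b s - (cM (eab b a) + cM (eab a b))‖ ≤ 6 * r := by
  have h1 : Real.sqrt (fsq (z - 1)) ≤ r := by
    rw [Real.sqrt_le_left hr.le]
    exact hz
  have h2 : ‖Zs z a b s - 1‖ ≤ 3 * r := (Zs_sub z a b s).trans (by linarith)
  have h0 : Ws' z a b s - (cM (eab b a) + cM (eab a b)) =
      cM (eab b a) * (Zs z a b s - 1) + (Zs z a b s - 1)ᵀ * cM (eab a b) := by
    unfold Ws'
    rw [Matrix.transpose_sub, Matrix.transpose_one]
    noncomm_ring
  rw [h0]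
  refine (norm_add_le _ _).trans ?_
  have h3 : ‖(Zs z a b s - 1)ᵀ‖ = ‖Zs z a b s - 1‖ := Matrix.frobenius_norm_transpose _
  have h4 : ‖cM (eab b a) * (Zs z a b s - 1)‖ ≤ 1 * (3 * r) := by
    refine (norm_mul_le _ _).trans ?_
    rw [eab_norm]
    gcongr
  have h5 : ‖(Zs z a b s - 1)ᵀ * cM (eab a b)‖ ≤ (3 * r) * 1 := by
    refine (norm_mul_le _ _).trans ?_
    rw [eab_norm, h3]
    gcongr
  linarith

lemma Ws'_norm {m : ℕ} (z : Matrix (Fin m) (Fin m) ℝ) (a b : Fin m) (s : ℂ) {r : ℝ}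
    (hr : 0 < r) (hr1 : r ≤ 1 / 4) (hz : fsq (z - 1) ≤ r ^ 2) (hs : ‖s‖ ≤ 2 * r) :
    ‖Ws' z a b s‖ ≤ 4 := by
  have h1 := Ws'_sub z a b s hr hz hs
  have h2 : ‖cM (eab b a) + cM (eab a b)‖ ≤ 2 := by
    refine (norm_add_le _ _).trans ?_
    rw [eab_norm, eab_norm]
    norm_num
  have h3 : Ws' z a b s = (Ws' z a b s - (cM (eab b a) + cM (eab a b))) +
      (cM (eab b a) + cM (eab a b)) := by abel
  rw [h3]
  refine (norm_add_le _ _).trans ?_
  linarith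

lemma Zs_deriv {m : ℕ} (z : Matrix (Fin m) (Fin m) ℝ) (a b : Fin m) (s : ℂ) (i j : Fin m) :
    HasDerivAt (fun t => Zs z a b t i j) (cM (eab a b) i j) s := by
  have h1 : (fun t => Zs z a b t i j) = fun t => cM z i j + t * cM (eab a b) i j := by
    funext t
    unfold Zs
    rw [Matrix.add_apply, Matrix.smul_apply, smul_eq_mul]
  rw [h1]
  have h2 := ((hasDerivAt_id s).mul_const (cM (eab a b) i j)).const_add (cM z i j)
  simpa using h2

lemma Ws_deriv {m : ℕ} (z : Matrix (Fin m) (Fin m) ℝ) (a b : Fin m) (s : ℂ) (i j : Fin m) :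
    HasDerivAt (fun t => Ws z a b t i j) (Ws' z a b s i j) s := by
  have h1 : (fun t => Ws z a b t i j) = fun t =>
      ∑ l, Zs z a b t l i * Zs z a b t l j - (1 : Matrix (Fin m) (Fin m) ℂ) i j := by
    funext t
    unfold Ws
    rw [Matrix.sub_apply, Matrix.mul_apply]
    rfl
  rw [h1]
  have h2 : Ws' z a b s i j = ∑ l, (cM (eab a b) l i * Zs z a b s l j +
      Zs z a b s l i * cM (eab a b) l j) := by
    unfold Ws'
    rw [Matrix.add_apply, Matrix.mul_apply, Matrix.mul_apply, Finset.sum_add_distrib,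
      ← eab_tr a b]
    rfl
  rw [h2]
  refine HasDerivAt.sub_const _ ?_
  exact HasDerivAt.fun_sum fun l _ => (Zs_deriv z a b s l i).mul (Zs_deriv z a b s l j)

/-- the derivative of the minor, in terms of an inverse -/
lemma us_deriv {m : ℕ} (E z : Matrix (Fin m) (Fin m) ℝ) (a b : Fin m) (s : ℂ)
    (N : Matrix (Fin m) (Fin m) ℂ) (hN : N * (1 + cM E * Ws z a b s * cM E) = 1) :
    HasDerivAt (us E z a b) (us E z a b s * (N * (cM E * Ws' z a b s * cM E)).trace) s := by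
  refine det_deriv (fun t => 1 + cM E * Ws z a b t * cM E) _ N s (fun i j => ?_) hN
  have h1 : (fun t => (1 + cM E * Ws z a b t * cM E) i j) = fun t =>
      (1 : Matrix (Fin m) (Fin m) ℂ) i j +
        ∑ l, (∑ n, cM E i n * Ws z a b t n l) * cM E l j := by
    funext t
    rw [Matrix.add_apply, Matrix.mul_apply]
    simp only [Matrix.mul_apply]
  rw [h1]
  have h2 : (cM E * Ws' z a b s * cM E) i j =
      ∑ l, (∑ n, cM E i n * Ws' z a b s n l) * cM E l j := by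
    rw [Matrix.mul_apply]
    simp only [Matrix.mul_apply]
  rw [h2]
  refine HasDerivAt.const_add _ ?_
  refine HasDerivAt.fun_sum fun l _ => HasDerivAt.mul_const ?_ _
  exact HasDerivAt.fun_sum fun n _ => (Ws_deriv z a b s n l).const_mul _

end Pool.Agent.H16.GHK
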