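import Pool.Agent.H16.GHK.PH3
import Pool.Agent.H87.GHK.LIN

/-!
Row JKF of the page ghk, part 4: the integral along a coordinate line.
-/

set_option autoImplicit false

namespace Pool.Agent.H16.GHK

open Matrix Pool.Agent.H40.GHK

lemma cM_add {m : ℕ} (A B : Matrix (Fin m) (Fin m) ℝ) : cM (A + B) = cM A + cM B := by
  ext i j
  simp [cM]

lemma cM_det {m : ℕ} (A : Matrix (Fin m) (Fin m) ℝ) : (cM A).det = ((A.det : ℝ) : ℂ) := by
  have h := RingHom.map_det Complex.ofRealHom A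
  have h2 : (Complex.ofRealHom.mapMatrix A) = cM A := by
    ext i j
    simp [cM]
  rw [h2] at h
  exact h.symm

lemma cM_line {m : ℕ} (z : Matrix (Fin m) (Fin m) ℝ) (a b : Fin m) (x : ℝ) :
    Zs z a b (x : ℂ) = cM (z + x • eab a b) := by
  unfold Zs
  ext i j
  simp [cM]

lemma us_real {m : ℕ} (E z : Matrix (Fin m) (Fin m) ℝ) (a b : Fin m) (x : ℝ) :
    us E z a b (x : ℂ) = (((1 + E * ((z + x • eab a b)ᵀ * (z + x • eab a b) - 1) * E).det : ℝ) :
      ℂ) := by
  unfold us Ws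
  rw [cM_line, ← cM_tr, ← cM_mul, ← cM_one, ← cM_sub, ← cM_mul, ← cM_mul, ← cM_add, cM_det]

lemma us_log_real {m : ℕ} (E z : Matrix (Fin m) (Fin m) ℝ) (a b : Fin m) (x : ℝ)
    (h : ‖us E z a b (x : ℂ) - 1‖ ≤ 1 / 2) :
    0 < (1 + E * ((z + x • eab a b)ᵀ * (z + x • eab a b) - 1) * E).det ∧
    Complex.log (us E z a b (x : ℂ)) = ((Real.log (1 + E * ((z + x • eab a b)ᵀ *
      (z + x • eab a b) - 1) * E).det : ℝ) : ℂ) := by
  rw [us_real] at h ⊢
  obtain ⟨y, hy⟩ : ∃ y : ℝ, y = (1 + E * ((z + x • eab a b)ᵀ * (z + x • eab a b) - 1) * E).det :=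
    ⟨_, rfl⟩
  rw [← hy] at h ⊢
  have h1 : ‖((y : ℂ)) - 1‖ = |y - 1| := by
    rw [← Complex.ofReal_one, ← Complex.ofReal_sub, Complex.norm_real, Real.norm_eq_abs]
  rw [h1, abs_le] at h
  have hy0 : 0 < y := by linarith [h.1]
  exact ⟨hy0, (Complex.ofReal_log hy0.le).symm⟩

lemma log_near {u : ℂ} (h : ‖u - 1‖ ≤ 1 / 2) : ‖Complex.log u‖ ≤ 1 := by
  have h1 := Complex.norm_log_one_add_half_le_self h
  have h2 : 1 + (u - 1) = u := by ring
  rw [h2] at h1
  linarith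

/-- the integral along a coordinate line -/
theorem slice {m : ℕ} (A : ℕ) : ∃ CL : ℝ, 0 < CL ∧ ∀ (C0 r B : ℝ), 0 < r → r ≤ 1 → 0 < C0 →
    0 ≤ B → C0 * r * m * m ≤ 1 / 2 →
    (∀ z : Matrix (Fin m) (Fin m) ℝ, fsq (z - 1) ≤ r ^ 2 → ∀ (a b : Fin m) (s : ℂ), ‖s‖ ≤ 2 * r →
    (∀ E, Prj E → ‖us E z a b s - 1‖ ≤ 1 / 2 ∧ DifferentiableAt ℂ (us E z a b) s) ∧
    ∀ E E', Prj E → Prj E' → ∃ d : ℂ,
      HasDerivAt (fun t => Complex.log (us E z a b t) - Complex.log (us E' z a b t)) d s ∧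
      ‖d - 2 * (((E - E') a b : ℝ) : ℂ)‖ ≤ C0 * r * Real.sqrt (fsq (E - E'))) →
    ∀ (E E' : ℕ → Matrix (Fin m) (Fin m) ℝ) (c : ℕ → ℂ) (bt : ℕ → ℝ),
    (∀ j, j < m → Prj (E j)) → (∀ j, j < m → Prj (E' j)) → (∀ j, j < m → |(c j).re| ≤ B) →
    (∀ j, j < m → (c j).im = bt j ∨ E j = E' j) → (∀ j, 0 ≤ bt j) →
    ∀ (D : Matrix (Fin m) (Fin m) ℝ), D = ∑ j ∈ Finset.range m, bt j • (E j - E' j) →
    (∀ j, j < m → bt j * Real.sqrt (fsq (E j - E' j)) ≤ Real.sqrt (fsq D)) →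
    ∀ a b : Fin m, Real.sqrt (fsq D) ≤ m * |D a b| →
    ∀ (z : Matrix (Fin m) (Fin m) ℝ), fsq (z - 1) ≤ r ^ 2 → ∀ sg : ℝ, 0 < sg → sg ≤ r →
    ‖∫ s in (-sg)..sg, ((sg : ℂ) ^ 2 - (s : ℂ) ^ 2) ^ A * Complex.exp (∑ j ∈ Finset.range m,
      (c j * Complex.log (us (E j) z a b s) +
        (starRingEnd ℂ) (c j) * Complex.log (us (E' j) z a b s)))‖ ≤
      CL * Real.exp (2 * m * B) * ((1 + 2 * |D a b|) ^ A)⁻¹ := by
  obtain ⟨CL, hCL, hlin⟩ := Pool.Agent.H87.GHK.lin A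
  refine ⟨CL, hCL, ?_⟩
  intro C0 r B hr hr1 hC0 hB hCr H E E' c bt hE hE' hcB hcb hbt D hD hDj a b hab z hz sg hsg hsgr
  obtain ⟨Bf, hBf⟩ : ∃ Bf : ℂ → ℂ, Bf = fun s => Complex.exp (∑ j ∈ Finset.range m,
    (((c j).re : ℝ) : ℂ) * (Complex.log (us (E j) z a b s) + Complex.log (us (E' j) z a b s))) :=
    ⟨_, rfl⟩
  obtain ⟨Ps, hPs⟩ : ∃ Ps : ℂ → ℂ, Ps = fun s => ∑ j ∈ Finset.range m,
    ((bt j : ℝ) : ℂ) * (Complex.log (us (E j) z a b s) - Complex.log (us (E' j) z a b s)) :=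
    ⟨_, rfl⟩
  have hball : ∀ s : ℂ, s ∈ Metric.ball (0 : ℂ) (2 * r) → ‖s‖ ≤ 2 * r := fun s hs =>
    (mem_ball_zero_iff.1 hs).le
  have hdl : ∀ F, Prj F → ∀ s ∈ Metric.ball (0 : ℂ) (2 * r),
      DifferentiableAt ℂ (fun t => Complex.log (us F z a b t)) s := by
    intro F hF s hs
    obtain ⟨h1, h2⟩ := (H z hz a b s (hball s hs)).1 F hF
    exact h2.clog (near_slit h1)
  have hln : ∀ F, Prj F → ∀ s ∈ Metric.ball (0 : ℂ) (2 * r),
      ‖Complex.log (us F z a b s)‖ ≤ 1 := by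
    intro F hF s hs
    exact log_near ((H z hz a b s (hball s hs)).1 F hF).1
  have key := hlin sg (2 * r) (Real.exp (2 * m * B)) (2 * D a b) Bf Ps hsg (by linarith)
    (by linarith) ?_ ?_ ?_ ?_ ?_
  · have e1 : |2 * D a b| = 2 * |D a b| := by rw [abs_mul, abs_two]
    rw [e1] at key
    refine le_trans (le_of_eq ?_) key
    congr 1
    refine intervalIntegral.integral_congr fun s _ => ?_
    show _ = ((sg : ℂ) ^ 2 - (s : ℂ) ^ 2) ^ A * Bf s * Complex.exp (Complex.I * Ps s)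
    rw [mul_assoc, hBf, hPs]
    dsimp only
    rw [← Complex.exp_add, Finset.mul_sum, ← Finset.sum_add_distrib]
    congr 2
    refine Finset.sum_congr rfl fun j hj => ?_
    have hjm : j < m := Finset.mem_range.1 hj
    have hc : c j = (((c j).re : ℝ) : ℂ) + (((c j).im : ℝ) : ℂ) * Complex.I :=
      (Complex.re_add_im (c j)).symm
    have hcc : (starRingEnd ℂ) (c j) =
        (((c j).re : ℝ) : ℂ) - (((c j).im : ℝ) : ℂ) * Complex.I := by
      apply Complex.ext <;> simp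
    rcases hcb j hjm with h1 | h1
    · rw [hcc]
      nth_rewrite 1 [hc]
      rw [h1]
      ring
    · rw [hcc, ← h1]
      nth_rewrite 1 [hc]
      ring
  · -- differentiability of the amplitude
    rw [hBf]
    intro s hs
    refine DifferentiableAt.differentiableWithinAt ?_
    refine DifferentiableAt.cexp ?_
    refine DifferentiableAt.fun_sum fun j hj => ?_
    have hjm : j < m := Finset.mem_range.1 hj
    exact ((hdl _ (hE j hjm) s hs).add (hdl _ (hE' j hjm) s hs)).const_mul _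
  · rw [hPs]
    intro s hs
    refine DifferentiableAt.differentiableWithinAt ?_
    refine DifferentiableAt.fun_sum fun j hj => ?_
    have hjm : j < m := Finset.mem_range.1 hj
    exact ((hdl _ (hE j hjm) s hs).sub (hdl _ (hE' j hjm) s hs)).const_mul _
  · intro s hs
    rw [hBf]
    dsimp only
    rw [Complex.norm_exp]
    refine Real.exp_le_exp.2 ((Complex.re_le_norm _).trans ((norm_sum_le _ _).trans ?_))
    calc ∑ j ∈ Finset.range m, ‖(((c j).re : ℝ) : ℂ) * (Complex.log (us (E j) z a b s) +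
          Complex.log (us (E' j) z a b s))‖ ≤ ∑ _j ∈ Finset.range m, B * 2 := by
          refine Finset.sum_le_sum fun j hj => ?_
          have hjm : j < m := Finset.mem_range.1 hj
          rw [norm_mul, Complex.norm_real, Real.norm_eq_abs]
          refine mul_le_mul (hcB j hjm) ?_ (norm_nonneg _) hB
          refine (norm_add_le _ _).trans ?_
          have h1 := hln _ (hE j hjm) s hs
          have h2 := hln _ (hE' j hjm) s hs
          linarith
      _ = 2 * m * B := by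
          rw [Finset.sum_const, Finset.card_range, nsmul_eq_mul]
          ring
  · intro x hx
    rw [hPs]
    dsimp only
    have hxb : (x : ℂ) ∈ Metric.ball (0 : ℂ) (2 * r) := by
      rw [mem_ball_zero_iff, Complex.norm_real, Real.norm_eq_abs]
      exact hx
    rw [Complex.im_sum]
    refine Finset.sum_eq_zero fun j hj => ?_
    have hjm : j < m := Finset.mem_range.1 hj
    have h1 := (us_log_real (E j) z a b x ((H z hz a b x (hball _ hxb)).1 _ (hE j hjm)).1).2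
    have h2 := (us_log_real (E' j) z a b x ((H z hz a b x (hball _ hxb)).1 _ (hE' j hjm)).1).2
    rw [h1, h2, ← Complex.ofReal_sub, ← Complex.ofReal_mul, Complex.ofReal_im]
  · intro s hs
    have hex : ∀ j, ∃ d : ℂ, j < m → HasDerivAt (fun t => Complex.log (us (E j) z a b t) -
        Complex.log (us (E' j) z a b t)) d s ∧
        ‖d - 2 * (((E j - E' j) a b : ℝ) : ℂ)‖ ≤ C0 * r * Real.sqrt (fsq (E j - E' j)) := by
      intro j
      by_cases hjm : j < m
      · obtain ⟨d, hd⟩ := (H z hz a b s (hball s hs)).2 _ _ (hE j hjm) (hE' j hjm)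
        exact ⟨d, fun _ => hd⟩
      · exact ⟨0, fun h => absurd h hjm⟩
    choose d hd using hex
    have hder : HasDerivAt Ps (∑ j ∈ Finset.range m, ((bt j : ℝ) : ℂ) * d j) s := by
      rw [hPs]
      exact HasDerivAt.fun_sum fun j hj => ((hd j (Finset.mem_range.1 hj)).1).const_mul _
    rw [hder.deriv]
    have hDab : ((2 * D a b : ℝ) : ℂ) =
        ∑ j ∈ Finset.range m, ((bt j : ℝ) : ℂ) * (2 * (((E j - E' j) a b : ℝ) : ℂ)) := by
      have h1 : D a b = ∑ j ∈ Finset.range m, bt j * (E j - E' j) a b := by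
        rw [hD, Matrix.sum_apply]
        refine Finset.sum_congr rfl fun j _ => ?_
        rw [Matrix.smul_apply, smul_eq_mul]
      rw [h1, Finset.mul_sum, Complex.ofReal_sum]
      refine Finset.sum_congr rfl fun j _ => ?_
      push_cast
      ring
    rw [hDab, ← Finset.sum_sub_distrib]
    have hb1 : ‖∑ j ∈ Finset.range m, (((bt j : ℝ) : ℂ) * d j -
        ((bt j : ℝ) : ℂ) * (2 * (((E j - E' j) a b : ℝ) : ℂ)))‖ ≤
        ∑ _j ∈ Finset.range m, C0 * r * Real.sqrt (fsq D) := by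
      refine (norm_sum_le _ _).trans (Finset.sum_le_sum fun j hj => ?_)
      have hjm : j < m := Finset.mem_range.1 hj
      rw [← mul_sub, norm_mul, Complex.norm_real, Real.norm_eq_abs, abs_of_nonneg (hbt j)]
      calc bt j * ‖d j - 2 * (((E j - E' j) a b : ℝ) : ℂ)‖
          ≤ bt j * (C0 * r * Real.sqrt (fsq (E j - E' j))) :=
            mul_le_mul_of_nonneg_left (hd j hjm).2 (hbt j)
        _ = C0 * r * (bt j * Real.sqrt (fsq (E j - E' j))) := by ring
        _ ≤ C0 * r * Real.sqrt (fsq D) :=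
            mul_le_mul_of_nonneg_left (hDj j hjm) (mul_nonneg hC0.le hr.le)
    refine hb1.trans ?_
    rw [Finset.sum_const, Finset.card_range, nsmul_eq_mul, abs_mul, abs_two]
    have hm0 : (0 : ℝ) ≤ m := Nat.cast_nonneg m
    have h3 : 0 ≤ C0 * r := mul_nonneg hC0.le hr.le
    calc (m : ℝ) * (C0 * r * Real.sqrt (fsq D)) ≤ m * (C0 * r * (m * |D a b|)) := by gcongr
      _ = (C0 * r * m * m) * |D a b| := by ring
      _ ≤ 1 / 2 * |D a b| := mul_le_mul_of_nonneg_right hCr (abs_nonneg _)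
      _ = 2 * |D a b| / 4 := by ring

end Pool.Agent.H16.GHK
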